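import Mathlib

set_option autoImplicit false

namespace Hof211

open Finset

/-- exponents of the letters 2, 3, 5, 8, 9 -/
def e2 (l : ℕ) : ℕ := if l = 2 then 1 else if l = 8 then 3 else 0
def e3 (l : ℕ) : ℕ := if l = 3 then 1 else if l = 9 then 2 else 0
def e5 (l : ℕ) : ℕ := if l = 5 then 1 else 0

/-- two linear forms in the exponents -/
def X1 (a b c : ℕ) : ℤ := 2 * (b : ℤ) - a - c
def X2 (a b c : ℕ) : ℤ := 5 * (c : ℤ) - a - b

def pTab : List ℕ := [9, 9, 8, 8, 8, 8, 8, 8, 8, 8, 5, 5, 5, 5, 5, 5, 5, 5, 5, 5, 5, 3, 3, 3, 3, 3, 3, 3, 3, 3, 3, 3, 3, 3, 3, 2, 2, 2, 2, 2, 3, 3, 3, 2, 2, 2, 2, 2, 2, 2, 2, 2, 2, 2, 2, 2, 2, 2, 2, 2, 2, 2, 2, 2, 2, 2, 2, 2, 2, 2, 9, 9, 8, 8, 8, 8, 8, 8, 5, 5, 5, 5, 5, 5, 5, 5, 5, 5, 5, 5, 5, 5, 3, 3, 3, 3, 3, 3, 3, 3, 3, 3, 3, 3, 3, 3, 2, 2, 3, 2, 2, 2, 2, 2, 2, 2, 2, 2, 2, 2, 2, 2, 2, 2, 2, 2, 2, 2, 2, 2, 2, 2, 2, 2, 2, 2, 2, 2, 2, 2, 9, 9, 9, 9, 9, 9, 9, 8,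 8, 8, 5, 5, 5, 5, 5, 5, 5, 5, 5, 5, 3, 3, 3, 3, 3, 3, 3, 3, 3, 3, 3, 3, 3, 3, 3, 2, 2, 2, 2, 3, 3, 3, 3, 2, 2, 2, 2, 2, 2, 2, 2, 2, 2, 2, 2, 2, 2, 2, 2, 2, 2, 2, 2, 2, 2, 2, 2, 2, 2, 2, 9, 9, 9, 9, 9, 9, 9, 8, 5, 5, 5, 5, 5, 5, 5, 5, 5, 5, 5, 5, 3, 3, 3, 3, 3, 3, 3, 3, 3, 3, 3, 3, 3, 3, 3, 2, 2, 2, 3, 2, 2, 2, 2, 2, 2, 2, 2, 2, 2, 2, 2, 2, 2, 2, 2, 2, 2, 2, 2, 2, 2, 2, 2, 2, 2, 2, 2, 2, 2, 2]

def gTab : List ℕ := [27724, 28046, 20780, 21238, 23891, 22888, 21222, 22612, 23527, 21632, 23713, 22540, 23943, 26430, 26019, 22622, 23138, 24349, 23512, 22954, 22460, 24656, 24417, 24608, 27691, 25414, 24985, 26708, 28307, 31281, 30187, 28365, 24726, 26210, 25082, 26958, 20311, 22612, 25289, 21829, 25582, 24896, 23778, 22954, 22460, 22775, 23697, 25670, 24987, 28803, 28302, 24621, 25155, 20748, 22776, 24400, 22589, 21866, 23863, 26001, 25582, 22188, 22803, 21488, 24103, 23091, 21410, 22812, 21376,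 20000, 20329, 23415, 21132, 20000, 23691, 20926, 24123, 28048, 31223, 34138, 27015, 28769, 24338, 23809, 25377, 27142, 29462, 25147, 27431, 28522, 20082, 20002, 25814, 27835, 22759, 25306, 23537, 22799, 22164, 20158, 20817, 23856, 22576, 27565, 26655, 22848, 21483, 23304, 28145, 34138, 29136, 25776, 28363, 28522, 29224, 20936, 28021, 25105, 24201, 22105, 23333, 26189, 25855, 23392, 32530, 28681, 29711, 26199, 27748, 24186, 25865, 25722, 31970, 29202, 27125, 26944, 31950, 28240, 31437, 34372, 22473, 29636, 26024, 25816, 24652, 23102, 21886, 22201, 21329, 20000, 42732, 36751, 33246, 33338, 28400, 29314, 30317, 32222, 27930, 30264, 28161, 23735, 21104, 32095, 30644, 29633, 27860, 24820, 28434, 25364, 21930, 23614, 22432, 22245, 25732, 25217, 25087, 23110, 21335, 24936, 21129, 22889, 21335, 30264, 28161, 25114, 25744, 29170, 25493, 26034, 22040, 21621, 24656, 23324, 22391, 21301, 24970, 25781,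 26574, 24936, 21129, 23218, 21144, 24560, 24927, 21461, 22117, 22448, 21566, 20223, 37233, 27332, 32907, 35557, 34565, 38200, 35232, 38152, 27779, 27689, 20000, 21765, 26380, 25873, 26645, 27683, 21898, 27397, 28485, 25847, 34071, 37864, 35362, 24278, 27578, 26908, 30901, 34082, 29847, 34355, 36494, 31616, 36294, 27397, 28949, 34100, 35897, 38152, 29781, 29083, 21898, 27397, 28485, 25847, 28487, 37717, 31270, 28568, 34072, 33663, 35711, 33395, 33058, 38826, 30864, 25847, 28487, 34713, 31375, 35515, 36234, 37691, 29735, 33137, 35072, 38760, 32965, 38712, 37582, 41425]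

def uTab : List ℕ := [0, 0, 96250, 108269, 0, 96250, 0, 0, 89167, 117220, 0, 0, 104104, 92549, 0, 104104, 0, 0, 112825, 85652, 0, 0, 96250, 96250, 0, 121787, 0, 0, 89167, 92641, 0, 0, 104104, 104104, 0, 82275, 0, 0, 112825, 108377]

/-- the letter used in sign pattern `s < 4` at the cell `j` (`10 ≤ j < 80`) -/
def pol (s j : ℕ) : ℕ := pTab.getD (70 * s + (j - 10)) 2

/-- cell weights, `e < 4` -/
def G (e j : ℕ) : ℕ := gTab.getD (70 * e + (j - 10)) 0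

/-- multipliers -/
def U (e l : ℕ) : ℕ := uTab.getD (10 * e + l) 0

/-- sign pattern of a state -/
def sgn (a b c : ℕ) : ℕ :=
  (if 0 ≤ X1 a b c then 0 else 2) + (if 0 ≤ X2 a b c then 0 else 1)

/-- the strategy -/
def strat (a b c j : ℕ) : ℕ := pol (sgn a b c) j

/-- the certificate, checked in the kernel -/
theorem cert : ∀ s < 4, ∀ k < 70,
    (pol s (k + 10) = 2 ∨ pol s (k + 10) = 3 ∨ pol s (k + 10) = 5 ∨ pol s (k + 10) = 8 ∨
      pol s (k + 10) = 9) ∧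
    90 ≤ pol s (k + 10) * (k + 10) ∧ pol s (k + 10) * (k + 11) ≤ 160 ∧
    U (s / 2) (pol s (k + 10)) *
      (∑ r ∈ range (pol s (k + 10)), G (s / 2) (pol s (k + 10) * (k + 10) + r - 80)) ≤
        100000 * (pol s (k + 10) * G (s / 2) (k + 10)) ∧
    U (2 + s % 2) (pol s (k + 10)) *
      (∑ r ∈ range (pol s (k + 10)), G (2 + s % 2) (pol s (k + 10) * (k + 10) + r - 80)) ≤
        100000 * (pol s (k + 10) * G (2 + s % 2) (k + 10)) := by
  decide +kernel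

theorem G_bound : ∀ e < 4, ∀ k < 70, 20000 ≤ G e (k + 10) ∧ G e (k + 10) ≤ 42732 := by
  decide +kernel

/-- averaging operator with stopping at `a + b + c ≥ w` -/
noncomputable def T (w : ℕ) (f : ℕ → ℕ → ℕ → ℕ → ℝ) : ℕ → ℕ → ℕ → ℕ → ℕ → ℝ
  | 0, a, b, c, j => f a b c j
  | n + 1, a, b, c, j =>
    if w ≤ a + b + c then f a b c j else
      (∑ r ∈ range (strat a b c j), T w f n (a + e2 (strat a b c j)) (b + e3 (strat a b c j))
        (c + e5 (strat a b c j)) (strat a b c j * j + r - 80)) / (strat a b c j : ℝ)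

noncomputable def qq : ℝ := 26 / 25
noncomputable def ss : ℝ := 1001 / 1000

/-- the potential -/
noncomputable def Phi (a b c j : ℕ) : ℝ :=
  qq ^ (X1 a b c) * G 0 j + qq ^ (-X1 a b c) * G 1 j + qq ^ (X2 a b c) * G 2 j +
    qq ^ (-X2 a b c) * G 3 j

noncomputable def Psi (a b c j : ℕ) : ℝ := ss ^ (a + b + c) * (Phi a b c j - 10 ^ 9)

/-- the number of leaves -/
inductive HofN : ℕ → Prop
  | two : HofN 2
  | three : HofN 3
  | mul {x y : ℕ} : HofN x → HofN y → HofN (x * y - 1)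

end Hof211
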