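import Pool.Agent.Helper211.Hof.Oper

set_option autoImplicit false

namespace Hof211

open Finset

theorem cnt_mono562 {M N : ℕ} (h : M ≤ N) : cnt M ≤ cnt N := by
  classical
  unfold cnt
  apply Finset.card_le_card
  intro x hx
  rw [Finset.mem_filter, Finset.mem_Icc] at hx ⊢
  exact ⟨⟨hx.1.1, hx.1.2.trans h⟩, hx.2⟩

theorem cnt_pos562 {N : ℕ} (h : 2 ≤ N) : 1 ≤ cnt N := by
  classical
  unfold cnt
  rw [Nat.one_le_iff_ne_zero, Finset.card_ne_zero]
  exact ⟨2, by rw [Finset.mem_filter, Finset.mem_Icc]; exact ⟨⟨by omega, h⟩, HofN.two⟩⟩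

/-- JOB B: from good scales to all scales. -/
theorem final_of (κ : ℕ) (c0 : ℝ) (hc0 : 0 < c0)
    (h : ∀ w : ℕ, ∃ a b c : ℕ, w ≤ a + b + c ∧ a + b + c < w + 3 ∧ |X1 a b c| ≤ κ ∧
      |X2 a b c| ≤ κ ∧
      c0 * ((2 ^ a * 3 ^ b * 5 ^ c : ℕ) : ℝ) ≤ (cnt (2 * (2 ^ a * 3 ^ b * 5 ^ c)) : ℝ)) :
    ∃ c : ℝ, 0 < c ∧ ∀ N : ℕ, 2 ≤ N → c * N ≤ (cnt N : ℝ) := by
  set m : ℕ := 2 * κ + 2 with hm
  set K : ℕ := 30 ^ m with hK
  have hK1 : 0 < K := by positivity
  have hKR : (0 : ℝ) < (K : ℝ) := by exact_mod_cast hK1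
  refine ⟨min (c0 / (720 * (K : ℝ) * K)) (1 / (2 * (K : ℝ))), ?_, ?_⟩
  · apply lt_min <;> positivity
  intro N hN
  by_cases hNK : 2 * K ≤ N
  · have hdiv : N / (2 * K) ≠ 0 := by
      rw [Nat.div_ne_zero_iff]
      exact ⟨by omega, hNK⟩
    set k := Nat.log 360 (N / (2 * K)) with hk
    have h1 : 360 ^ k ≤ N / (2 * K) := Nat.pow_log_le_self 360 hdiv
    have h2 : N / (2 * K) < 360 ^ (k + 1) := Nat.lt_pow_succ_log_self (by norm_num) _
    have h3 : 2 * K * 360 ^ k ≤ N := by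
      have := Nat.mul_le_mul_left (2 * K) h1
      exact this.trans (Nat.mul_div_le N (2 * K))
    have h4 : N < 360 ^ (k + 1) * (2 * K) := by
      rwa [Nat.div_lt_iff_lt_mul (by omega)] at h2
    obtain ⟨a, b, c, e1, e2, e3, e4, e5⟩ := h (6 * k)
    unfold X1 at e3
    unfold X2 at e4
    rw [abs_le] at e3 e4
    have a1 : a ≤ 3 * k + m := by omega
    have a2 : 3 * k ≤ a + m := by omega
    have b1 : b ≤ 2 * k + m := by omega
    have b2 : 2 * k ≤ b + m := by omega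
    have c1 : c ≤ k + m := by omega
    have c2 : k ≤ c + m := by omega
    set P : ℕ := 2 ^ a * 3 ^ b * 5 ^ c with hP
    have f1 : P ≤ K * 360 ^ k := by
      calc P ≤ 2 ^ (3 * k + m) * 3 ^ (2 * k + m) * 5 ^ (k + m) := by
            rw [hP]
            gcongr <;> norm_num
        _ = K * 360 ^ k := by
            rw [hK, show (30 : ℕ) = 2 * 3 * 5 by norm_num, show (360 : ℕ) = 2 ^ 3 * 3 ^ 2 * 5 by norm_num,
              mul_pow, mul_pow, mul_pow, mul_pow, ← pow_mul, ← pow_mul, pow_add, pow_add, pow_add]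
            ring
    have f2 : 360 ^ k ≤ P * K := by
      calc 360 ^ k = 2 ^ (3 * k) * 3 ^ (2 * k) * 5 ^ k := by
            rw [show (360 : ℕ) = 2 ^ 3 * 3 ^ 2 * 5 by norm_num, mul_pow, mul_pow, ← pow_mul, ← pow_mul]
        _ ≤ 2 ^ (a + m) * 3 ^ (b + m) * 5 ^ (c + m) := by
            gcongr <;> norm_num
        _ = P * K := by
            rw [hK, hP, show (30 : ℕ) = 2 * 3 * 5 by norm_num, mul_pow, mul_pow, pow_add, pow_add, pow_add]
            ring
    have f3 : cnt (2 * P) ≤ cnt N := by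
      apply cnt_mono562
      calc 2 * P ≤ 2 * (K * 360 ^ k) := by omega
        _ = 2 * K * 360 ^ k := by ring
        _ ≤ N := h3
    have f4 : (N : ℝ) ≤ 360 ^ (k + 1) * (2 * K) := by exact_mod_cast h4.le
    have f5 : (360 : ℝ) ^ k ≤ P * K := by exact_mod_cast f2
    have f6 : (N : ℝ) ≤ 720 * K * K * P := by
      calc (N : ℝ) ≤ 360 ^ (k + 1) * (2 * K) := f4
        _ = 720 * K * 360 ^ k := by ring
        _ ≤ 720 * K * (P * K) := by gcongr
        _ = 720 * K * K * P := by ring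
    calc min (c0 / (720 * (K : ℝ) * K)) (1 / (2 * (K : ℝ))) * N
        ≤ c0 / (720 * (K : ℝ) * K) * N := by
          gcongr
          exact min_le_left _ _
      _ ≤ c0 / (720 * (K : ℝ) * K) * (720 * K * K * P) := by gcongr
      _ = c0 * P := by
          field_simp
      _ ≤ (cnt (2 * P) : ℝ) := e5
      _ ≤ (cnt N : ℝ) := by exact_mod_cast f3
  · have h1 := cnt_pos562 hN
    have h2 : (N : ℝ) ≤ 2 * K := by
      have : N ≤ 2 * K := by omega
      exact_mod_cast this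
    calc min (c0 / (720 * (K : ℝ) * K)) (1 / (2 * (K : ℝ))) * N
        ≤ 1 / (2 * (K : ℝ)) * N := by
          gcongr
          exact min_le_right _ _
      _ ≤ 1 / (2 * (K : ℝ)) * (2 * K) := by gcongr
      _ = 1 := by field_simp
      _ ≤ (cnt N : ℝ) := by exact_mod_cast h1

end Hof211
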