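import Pool.Agent.Helper211.Hof.Oper

set_option autoImplicit false

namespace Hof211

open Finset

theorem ms_zp (m : ℤ) (g : ℝ) (hg : 20000 ≤ g) (h : qq ^ m * g ≤ 4 * 10 ^ 9) : m ≤ 400 := by
  by_contra hc
  push Not at hc
  have h1 : qq ^ (400:ℤ) ≤ qq ^ m := zpow_le_zpow_right₀ (by unfold qq; norm_num) hc.le
  have h2 : (6250000:ℝ) ≤ qq ^ (400:ℤ) := by
    have h3 : qq ^ (400:ℤ) = (qq ^ (100:ℕ)) ^ (4:ℕ) := by
      rw [← pow_mul, ← zpow_natCast]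
      norm_num
    have h4 : (50:ℝ) ≤ qq ^ (100:ℕ) := by
      unfold qq
      norm_num
    rw [h3]
    calc (6250000:ℝ) = 50 ^ 4 := by norm_num
      _ ≤ (qq ^ (100:ℕ)) ^ (4:ℕ) := pow_le_pow_left₀ (by norm_num) h4 4
  have h5 : (6250000:ℝ) ≤ qq ^ m := h2.trans h1
  have h6 : (6250000:ℝ) * 20000 ≤ qq ^ m * g := mul_le_mul h5 hg (by norm_num) (by linarith)
  norm_num at h6 h
  linarith

theorem ms_term_nonneg (m : ℤ) (g : ℕ) : 0 ≤ qq ^ m * (g : ℝ) := by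
  have : 0 < qq := by unfold qq; norm_num
  have := zpow_pos this m
  positivity

theorem ms_Phi_nonneg (a b c j : ℕ) : 0 ≤ Phi a b c j := by
  unfold Phi
  have h0 := ms_term_nonneg (X1 a b c) (G 0 j)
  have h1 := ms_term_nonneg (-X1 a b c) (G 1 j)
  have h2 := ms_term_nonneg (X2 a b c) (G 2 j)
  have h3 := ms_term_nonneg (-X2 a b c) (G 3 j)
  linarith

theorem ms_Phi_bound (a b c j : ℕ) (h10 : 10 ≤ j) (h80 : j < 80) (h : Phi a b c j ≤ 4 * 10 ^ 9) :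
    |X1 a b c| ≤ 400 ∧ |X2 a b c| ≤ 400 := by
  unfold Phi at h
  have h0 := ms_term_nonneg (X1 a b c) (G 0 j)
  have h1 := ms_term_nonneg (-X1 a b c) (G 1 j)
  have h2 := ms_term_nonneg (X2 a b c) (G 2 j)
  have h3 := ms_term_nonneg (-X2 a b c) (G 3 j)
  have hG : ∀ e < 4, (20000:ℝ) ≤ G e j := by
    intro e he
    have := (G_bound e he (j - 10) (by omega)).1
    rw [Nat.sub_add_cancel h10] at this
    exact_mod_cast this
  have k0 := ms_zp _ _ (hG 0 (by norm_num)) (by linarith : qq ^ (X1 a b c) * (G 0 j : ℝ) ≤ 4 * 10 ^ 9)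
  have k1 := ms_zp _ _ (hG 1 (by norm_num)) (by linarith : qq ^ (-X1 a b c) * (G 1 j : ℝ) ≤ 4 * 10 ^ 9)
  have k2 := ms_zp _ _ (hG 2 (by norm_num)) (by linarith : qq ^ (X2 a b c) * (G 2 j : ℝ) ≤ 4 * 10 ^ 9)
  have k3 := ms_zp _ _ (hG 3 (by norm_num)) (by linarith : qq ^ (-X2 a b c) * (G 3 j : ℝ) ≤ 4 * 10 ^ 9)
  rw [abs_le, abs_le]
  refine ⟨⟨by linarith, k0⟩, ⟨by linarith, k2⟩⟩

/-- the possible leaves -/
def msS (w : ℕ) : Finset (ℕ × ℕ × ℕ) :=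
  ((range (w + 3)) ×ˢ ((range (w + 3)) ×ˢ (range (w + 3)))).filter (fun v =>
    (w ≤ v.1 + v.2.1 + v.2.2 ∧ v.1 + v.2.1 + v.2.2 < w + 3) ∧
      |X1 v.1 v.2.1 v.2.2| ≤ 400 ∧ |X2 v.1 v.2.1 v.2.2| ≤ 400)

theorem msS_mem (w : ℕ) (v : ℕ × ℕ × ℕ) : v ∈ msS w ↔
    ((w ≤ v.1 + v.2.1 + v.2.2 ∧ v.1 + v.2.1 + v.2.2 < w + 3) ∧
      |X1 v.1 v.2.1 v.2.2| ≤ 400 ∧ |X2 v.1 v.2.1 v.2.2| ≤ 400) := by
  unfold msS
  rw [Finset.mem_filter]
  constructor
  · exact fun h => h.2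
  · intro h
    refine ⟨?_, h⟩
    simp only [Finset.mem_product, Finset.mem_range]
    omega

theorem msS_card (w : ℕ) : (msS w).card ≤ 1924803 := by
  have h1 : ((Finset.Icc (-400:ℤ) 400) ×ˢ ((Finset.Icc (-400:ℤ) 400) ×ˢ (range 3))).card = 1924803 := by
    rw [Finset.card_product, Finset.card_product, Int.card_Icc, Finset.card_range]
    rfl
  rw [← h1]
  refine Finset.card_le_card_of_injOn
    (fun v => (X1 v.1 v.2.1 v.2.2, X2 v.1 v.2.1 v.2.2, v.1 + v.2.1 + v.2.2 - w)) ?_ ?_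
  · intro v hv
    have hv' := (msS_mem w v).mp hv
    rw [abs_le, abs_le] at hv'
    simp only [Finset.coe_product, Set.mem_prod, Finset.coe_Icc, Set.mem_Icc, Finset.coe_range,
      Set.mem_Iio]
    refine ⟨hv'.2.1, hv'.2.2, ?_⟩
    have := hv'.1
    omega
  · intro v hv v' hv' heq
    have h2 := ((msS_mem w v).mp hv).1
    have h3 := ((msS_mem w v').mp hv').1
    obtain ⟨x, y, z⟩ := v
    obtain ⟨x', y', z'⟩ := v'
    simp only [Prod.mk.injEq, X1, X2] at heq h2 h3 ⊢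
    omega

/-- JOB C: pigeonhole. `hT` is the conclusion of the supermartingale argument, `hmono` and `hsum`
are the basic properties of the averaging operator `T` (proved elsewhere). -/
theorem mass
    (hT : ∀ w : ℕ, T w Psi w 0 0 0 10 ≤ Psi 0 0 0 10)
    (hmono : ∀ (w : ℕ) (f g : ℕ → ℕ → ℕ → ℕ → ℝ),
      (∀ a b c j, w ≤ a + b + c → a + b + c < w + 3 → 10 ≤ j → j < 80 → f a b c j ≤ g a b c j) →
      T w f w 0 0 0 10 ≤ T w g w 0 0 0 10)
    (hconst : ∀ (w : ℕ) (x : ℝ), T w (fun _ _ _ _ => x) w 0 0 0 10 = x)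
    (hsmul : ∀ (w : ℕ) (x : ℝ) (f : ℕ → ℕ → ℕ → ℕ → ℝ),
      T w (fun a b c j => x * f a b c j) w 0 0 0 10 = x * T w f w 0 0 0 10)
    (hsum : ∀ (w : ℕ) (S : Finset (ℕ × ℕ × ℕ)) (f : ℕ × ℕ × ℕ → ℕ → ℕ → ℕ → ℕ → ℝ),
      T w (fun a b c j => ∑ v ∈ S, f v a b c j) w 0 0 0 10 = ∑ v ∈ S, T w (f v) w 0 0 0 10) :
    ∃ (κ : ℕ) (c0 : ℝ), 0 < c0 ∧ ∀ w : ℕ, ∃ x y z : ℕ, w ≤ x + y + z ∧ x + y + z < w + 3 ∧
      |X1 x y z| ≤ κ ∧ |X2 x y z| ≤ κ ∧
      c0 ≤ T w (fun a b c _ => if a = x ∧ b = y ∧ c = z then 1 else 0) w 0 0 0 10 := by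
  have hadd : ∀ (w : ℕ) (f g : ℕ → ℕ → ℕ → ℕ → ℝ),
      T w (fun a b c j => f a b c j + g a b c j) w 0 0 0 10 =
        T w f w 0 0 0 10 + T w g w 0 0 0 10 := by
    intro w f g
    have h := hsum w {((0:ℕ), (0:ℕ), (0:ℕ)), ((1:ℕ), (0:ℕ), (0:ℕ))}
      (fun v => if v = ((0:ℕ), (0:ℕ), (0:ℕ)) then f else g)
    rw [Finset.sum_pair (by simp)] at h
    have h2 : (fun a b c j => ∑ v ∈ ({((0:ℕ), (0:ℕ), (0:ℕ)), ((1:ℕ), (0:ℕ), (0:ℕ))} :
        Finset (ℕ × ℕ × ℕ)), (if v = ((0:ℕ), (0:ℕ), (0:ℕ)) then f else g) a b c j) =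
        fun a b c j => f a b c j + g a b c j := by
      funext a b c j
      rw [Finset.sum_pair (by simp)]
      simp
    rw [h2] at h
    rw [h]
    simp
  have hss : 1 ≤ ss := by unfold ss; norm_num
  have hss0 : 0 < ss := by linarith
  refine ⟨400, 1 / (4 * 1924803), by norm_num, fun w => ?_⟩
  -- step 1
  have hPsi0 : Psi 0 0 0 10 ≤ 0 := by
    have hb : ∀ e < 4, (G e 10 : ℝ) ≤ 42732 := by
      intro e he
      have := (G_bound e he 0 (by norm_num)).2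
      exact_mod_cast this
    have hx1 : X1 0 0 0 = 0 := by simp [X1]
    have hx2 : X2 0 0 0 = 0 := by simp [X2]
    unfold Psi Phi
    rw [hx1, hx2]
    simp only [neg_zero, zpow_zero, one_mul, add_zero, pow_zero]
    have b0 := hb 0 (by norm_num)
    have b1 := hb 1 (by norm_num)
    have b2 := hb 2 (by norm_num)
    have b3 := hb 3 (by norm_num)
    have : (10:ℝ) ^ 9 = 1000000000 := by norm_num
    rw [this]
    linarith
  have hTPsi : T w Psi w 0 0 0 10 ≤ 0 := (hT w).trans hPsi0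
  -- step 2
  have hlow : T w (fun a b c j => ss ^ w * Phi a b c j + (-(ss ^ (w + 3) * 10 ^ 9))) w 0 0 0 10 ≤
      T w Psi w 0 0 0 10 := by
    apply hmono
    intro a b c j h1 h2 _ _
    have hP := ms_Phi_nonneg a b c j
    have e1 : ss ^ w ≤ ss ^ (a + b + c) := pow_le_pow_right₀ hss h1
    have e2 : ss ^ (a + b + c) ≤ ss ^ (w + 3) := pow_le_pow_right₀ hss h2.le
    have e3 := mul_le_mul_of_nonneg_right e1 hP
    have e4 := mul_le_mul_of_nonneg_right e2 (by norm_num : (0:ℝ) ≤ 10 ^ 9)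
    have e5 : Psi a b c j = ss ^ (a + b + c) * Phi a b c j - ss ^ (a + b + c) * 10 ^ 9 := by
      unfold Psi
      ring
    rw [e5]
    linarith
  rw [hadd, hsmul, hconst] at hlow
  have hTPhi : T w Phi w 0 0 0 10 ≤ 2 * 10 ^ 9 := by
    have e1 : ss ^ w * T w Phi w 0 0 0 10 ≤ ss ^ w * (ss ^ 3 * 10 ^ 9) := by
      have : ss ^ (w + 3) * 10 ^ 9 = ss ^ w * (ss ^ 3 * 10 ^ 9) := by rw [pow_add]; ring
      have e0 : (fun a b c j => Phi a b c j) = Phi := rfl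
      linarith
    have e2 : T w Phi w 0 0 0 10 ≤ ss ^ 3 * 10 ^ 9 := le_of_mul_le_mul_left e1 (by positivity)
    have e3 : ss ^ 3 ≤ 2 := by unfold ss; norm_num
    linarith [mul_le_mul_of_nonneg_right e3 (by norm_num : (0:ℝ) ≤ 10 ^ 9)]
  -- step 3
  have hmk : T w (fun a b c j => (1:ℝ) + (-(1 / (4 * 10 ^ 9))) * Phi a b c j) w 0 0 0 10 ≤
      T w (fun a b c j => ∑ v ∈ msS w, (fun (v : ℕ × ℕ × ℕ) (a b c _ : ℕ) =>
        if a = v.1 ∧ b = v.2.1 ∧ c = v.2.2 then (1:ℝ) else 0) v a b c j) w 0 0 0 10 := by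
    apply hmono
    intro a b c j h1 h2 h10 h80
    have hP := ms_Phi_nonneg a b c j
    have hnn : ∀ v ∈ msS w, (0:ℝ) ≤ (if a = v.1 ∧ b = v.2.1 ∧ c = v.2.2 then (1:ℝ) else 0) := by
      intro v _
      split_ifs <;> norm_num
    by_cases hle : Phi a b c j ≤ 4 * 10 ^ 9
    · have hb := ms_Phi_bound a b c j h10 h80 hle
      have hmem : (a, b, c) ∈ msS w := (msS_mem w (a, b, c)).mpr ⟨⟨h1, h2⟩, hb⟩
      have hone := Finset.single_le_sum hnn hmem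
      simp only [and_self, if_true] at hone
      refine le_trans ?_ hone
      have : 0 ≤ (1 / (4 * 10 ^ 9)) * Phi a b c j := by positivity
      linarith
    · push Not at hle
      have h0 := Finset.sum_nonneg hnn
      refine le_trans ?_ h0
      have : 1 ≤ (1 / (4 * 10 ^ 9)) * Phi a b c j := by
        rw [one_div, ← div_eq_inv_mul, le_div_iff₀ (by norm_num)]
        linarith
      linarith
  rw [hadd, hconst, hsmul, hsum] at hmk
  have hhalf : (1:ℝ) / 2 ≤ ∑ v ∈ msS w, T w ((fun (v : ℕ × ℕ × ℕ) (a b c _ : ℕ) =>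
        if a = v.1 ∧ b = v.2.1 ∧ c = v.2.2 then (1:ℝ) else 0) v) w 0 0 0 10 := by
    refine le_trans ?_ hmk
    have e1 : (1 / (4 * 10 ^ 9) : ℝ) * T w Phi w 0 0 0 10 ≤ 1 / (4 * 10 ^ 9) * (2 * 10 ^ 9) :=
      mul_le_mul_of_nonneg_left hTPhi (by positivity)
    have e2 : (1 / (4 * 10 ^ 9) : ℝ) * (2 * 10 ^ 9) = 1 / 2 := by norm_num
    have e0 : T w (fun a b c j => Phi a b c j) w 0 0 0 10 = T w Phi w 0 0 0 10 := rfl
    rw [e2] at e1
    linarith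
  by_contra hcon
  push Not at hcon
  have hall : ∀ v ∈ msS w, T w ((fun (v : ℕ × ℕ × ℕ) (a b c _ : ℕ) =>
        if a = v.1 ∧ b = v.2.1 ∧ c = v.2.2 then (1:ℝ) else 0) v) w 0 0 0 10 ≤
        1 / (4 * 1924803) := by
    intro v hv
    have hv' := (msS_mem w v).mp hv
    exact (hcon v.1 v.2.1 v.2.2 hv'.1.1 hv'.1.2 (by exact_mod_cast hv'.2.1)
      (by exact_mod_cast hv'.2.2)).le
  have h3 := Finset.sum_le_card_nsmul _ _ _ hall
  rw [nsmul_eq_mul] at h3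
  have h4 : ((msS w).card : ℝ) ≤ 1924803 := by exact_mod_cast msS_card w
  have h5 : ((msS w).card : ℝ) * (1 / (4 * 1924803)) ≤ 1924803 * (1 / (4 * 1924803)) :=
    mul_le_mul_of_nonneg_right h4 (by norm_num)
  have h6 : (1924803:ℝ) * (1 / (4 * 1924803)) = 1 / 4 := by norm_num
  linarith

end Hof211
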