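import Pool.Agent.Helper211.Hof.Step
import Pool.Agent.Helper211.Hof.Mass
import Pool.Agent.Helper211.Hof.Final

set_option autoImplicit false

namespace Hof211

open Finset

theorem main : ∃ c : ℝ, 0 < c ∧ ∀ N : ℕ, 2 ≤ N → c * N ≤ (cnt N : ℝ) := by
  obtain ⟨κ, c0, hc0, h⟩ := mass
    (fun w => T_super w Psi (fun a b c j h1 h2 => onestep a b c j h1 h2) w 0 0 0 10
      (by norm_num) (by norm_num))
    (fun w f g hfg => T_mono w f g hfg w 0 0 0 10 (by omega) (by omega) (by norm_num)
      (by norm_num))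
    (fun w x => T_const w x w 0 0 0 10 (by norm_num) (by norm_num))
    (fun w x f => T_smul w x f w 0 0 0 10)
    (fun w S f => T_sum w S f w 0 0 0 10)
  refine final_of κ (c0 / 80) (by positivity) (fun w => ?_)
  obtain ⟨x, y, z, h1, h2, h3, h4, h5⟩ := h w
  refine ⟨x, y, z, h1, h2, h3, h4, ?_⟩
  refine le_trans (mul_le_mul_of_nonneg_right ?_ (Nat.cast_nonneg _)) (cnt_ge w x y z)
  exact div_le_div_of_nonneg_right h5 (by norm_num)

end Hof211
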