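import Pool.Agent.Helper211.Hof.Defs

set_option autoImplicit false

namespace Hof211

open Finset

lemma sgn_lt (a b c : ℕ) : sgn a b c < 4 := by
  unfold sgn; split_ifs <;> norm_num

lemma strat_spec (a b c j : ℕ) (h1 : 10 ≤ j) (h2 : j < 80) :
    (strat a b c j = 2 ∨ strat a b c j = 3 ∨ strat a b c j = 5 ∨ strat a b c j = 8 ∨
      strat a b c j = 9) ∧ 90 ≤ strat a b c j * j ∧ strat a b c j * (j + 1) ≤ 160 := by
  obtain ⟨k, rfl⟩ : ∃ k, j = k + 10 := ⟨j - 10, by omega⟩
  have := cert (sgn a b c) (sgn_lt a b c) k (by omega)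
  exact ⟨this.1, this.2.1, this.2.2.1⟩

lemma om_spec {l : ℕ} (h : l = 2 ∨ l = 3 ∨ l = 5 ∨ l = 8 ∨ l = 9) :
    1 ≤ e2 l + e3 l + e5 l ∧ e2 l + e3 l + e5 l ≤ 3 := by
  rcases h with rfl | rfl | rfl | rfl | rfl <;> simp [e2, e3, e5]

lemma cell_spec {l j r : ℕ} (h1 : 90 ≤ l * j) (h2 : l * (j + 1) ≤ 160) (hr : r < l) :
    10 ≤ l * j + r - 80 ∧ l * j + r - 80 < 80 := by
  rw [mul_add, mul_one] at h2
  omega

lemma T_mono (w : ℕ) (f g : ℕ → ℕ → ℕ → ℕ → ℝ)
    (hfg : ∀ a b c j, w ≤ a + b + c → a + b + c < w + 3 → 10 ≤ j → j < 80 →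
      f a b c j ≤ g a b c j) :
    ∀ n a b c j, a + b + c < w + 3 → w ≤ a + b + c + n → 10 ≤ j → j < 80 →
      T w f n a b c j ≤ T w g n a b c j := by
  intro n
  induction n with
  | zero =>
    intro a b c j h1 h2 h3 h4
    exact hfg a b c j (by omega) h1 h3 h4
  | succ n ih =>
    intro a b c j h1 h2 h3 h4
    obtain ⟨hl, hl1, hl2⟩ := strat_spec a b c j h3 h4
    have ho := om_spec hl
    simp only [T]
    split_ifs with hw
    · exact hfg a b c j hw h1 h3 h4
    · refine div_le_div_of_nonneg_right (Finset.sum_le_sum fun r hr => ?_) (Nat.cast_nonneg _)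
      have hc := cell_spec hl1 hl2 (mem_range.mp hr)
      exact ih _ _ _ _ (by omega) (by omega) hc.1 hc.2

lemma T_super (w : ℕ) (Ψ : ℕ → ℕ → ℕ → ℕ → ℝ)
    (hstep : ∀ a b c j, 10 ≤ j → j < 80 →
      (∑ r ∈ range (strat a b c j), Ψ (a + e2 (strat a b c j)) (b + e3 (strat a b c j))
        (c + e5 (strat a b c j)) (strat a b c j * j + r - 80)) / (strat a b c j : ℝ) ≤
      Ψ a b c j) :
    ∀ n a b c j, 10 ≤ j → j < 80 → T w Ψ n a b c j ≤ Ψ a b c j := by
  intro n
  induction n with
  | zero => intro a b c j _ _; exact le_rfl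
  | succ n ih =>
    intro a b c j h3 h4
    obtain ⟨hl, hl1, hl2⟩ := strat_spec a b c j h3 h4
    simp only [T]
    split_ifs with hw
    · exact le_rfl
    · refine le_trans (div_le_div_of_nonneg_right (Finset.sum_le_sum fun r hr => ?_)
        (Nat.cast_nonneg _)) (hstep a b c j h3 h4)
      have hc := cell_spec hl1 hl2 (mem_range.mp hr)
      exact ih _ _ _ _ hc.1 hc.2

lemma T_const (w : ℕ) (x : ℝ) :
    ∀ n a b c j, 10 ≤ j → j < 80 → T w (fun _ _ _ _ => x) n a b c j = x := by
  intro n
  induction n with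
  | zero => intro a b c j _ _; rfl
  | succ n ih =>
    intro a b c j h3 h4
    obtain ⟨hl, hl1, hl2⟩ := strat_spec a b c j h3 h4
    have hl0 : (strat a b c j : ℝ) ≠ 0 := by
      have : strat a b c j ≠ 0 := by omega
      exact_mod_cast this
    simp only [T]
    split_ifs with hw
    · rfl
    · rw [Finset.sum_congr rfl (g := fun _ => x)]
      · rw [Finset.sum_const, Finset.card_range, nsmul_eq_mul]
        field_simp
      · intro r hr
        have hc := cell_spec hl1 hl2 (mem_range.mp hr)
        exact ih _ _ _ _ hc.1 hc.2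

lemma T_smul (w : ℕ) (x : ℝ) (f : ℕ → ℕ → ℕ → ℕ → ℝ) :
    ∀ n a b c j, T w (fun a b c j => x * f a b c j) n a b c j = x * T w f n a b c j := by
  intro n
  induction n with
  | zero => intro a b c j; rfl
  | succ n ih =>
    intro a b c j
    simp only [T]
    split_ifs with hw
    · rfl
    · simp only [ih]
      rw [← Finset.mul_sum, mul_div_assoc]

lemma T_add (w : ℕ) (f g : ℕ → ℕ → ℕ → ℕ → ℝ) :
    ∀ n a b c j, T w (fun a b c j => f a b c j + g a b c j) n a b c j =
      T w f n a b c j + T w g n a b c j := by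
  intro n
  induction n with
  | zero => intro a b c j; rfl
  | succ n ih =>
    intro a b c j
    simp only [T]
    split_ifs with hw
    · rfl
    · simp only [ih]
      rw [Finset.sum_add_distrib, add_div]

lemma T_sum (w : ℕ) (S : Finset (ℕ × ℕ × ℕ)) (f : ℕ × ℕ × ℕ → ℕ → ℕ → ℕ → ℕ → ℝ) :
    ∀ n a b c j, T w (fun a b c j => ∑ v ∈ S, f v a b c j) n a b c j =
      ∑ v ∈ S, T w (f v) n a b c j := by
  intro n
  induction n with
  | zero => intro a b c j; rfl
  | succ n ih =>
    intro a b c j
    simp only [T]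
    split_ifs with hw
    · rfl
    · simp only [ih]
      rw [Finset.sum_comm, Finset.sum_div]

/-- the product `2^a 3^b 5^c` -/
def pr (a b c : ℕ) : ℕ := 2 ^ a * 3 ^ b * 5 ^ c

lemma pr_pos (a b c : ℕ) : 0 < pr a b c := by unfold pr; positivity

lemma pr_mul {l : ℕ} (h : l = 2 ∨ l = 3 ∨ l = 5 ∨ l = 8 ∨ l = 9) (a b c : ℕ) :
    pr (a + e2 l) (b + e3 l) (c + e5 l) = l * pr a b c := by
  unfold pr
  rcases h with rfl | rfl | rfl | rfl | rfl <;> simp [e2, e3, e5, pow_add] <;> ring

lemma hof5 : HofN 5 := HofN.mul HofN.two HofN.three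
lemma hof8 : HofN 8 := HofN.mul HofN.three HofN.three
lemma hof9 : HofN 9 := HofN.mul HofN.two hof5

/-- a sub-cell that is reached with the product `2^a 3^b 5^c` -/
def Node (a b c i : ℕ) : Prop :=
  HofN (2 * pr a b c - i / 80) ∧ i < 80 * pr a b c ∧ 10 ≤ i % 80

lemma node_child {a b c i : ℕ} (h : Node a b c i) {r : ℕ} (hr : r < strat a b c (i % 80)) :
    Node (a + e2 (strat a b c (i % 80))) (b + e3 (strat a b c (i % 80)))
      (c + e5 (strat a b c (i % 80))) (strat a b c (i % 80) * i + r) ∧
    (strat a b c (i % 80) * i + r) % 80 = strat a b c (i % 80) * (i % 80) + r - 80 := by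
  obtain ⟨h1, h2, h3⟩ := h
  have h4 : i % 80 < 80 := Nat.mod_lt _ (by norm_num)
  obtain ⟨hl, hl1, hl2⟩ := strat_spec a b c (i % 80) h3 h4
  have hc := cell_spec hl1 hl2 hr
  have hpr := pr_mul hl a b c
  generalize strat a b c (i % 80) = l at *
  have hP := pr_pos a b c
  generalize hPdef : pr a b c = P at *
  have hi : i = 80 * (i / 80) + i % 80 := (Nat.div_add_mod i 80).symm
  generalize hq : i / 80 = q at *
  generalize hj : i % 80 = j at *
  have hqP : q < P := by omega
  have hli : l * i + r = (l * j + r - 80) + 80 * (l * q + 1) := by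
    rw [hi, mul_add]
    have : l * (80 * q) = 80 * (l * q) := by ring
    rw [this]
    have hlj : 90 ≤ l * j := hl1
    omega
  have hmod : (l * i + r) % 80 = l * j + r - 80 := by
    rw [hli, Nat.add_mul_mod_self_left, Nat.mod_eq_of_lt hc.2]
  have hdiv : (l * i + r) / 80 = l * q + 1 := by
    rw [hli, Nat.add_mul_div_left _ _ (by norm_num), Nat.div_eq_of_lt hc.2, zero_add]
  refine ⟨⟨?_, ?_, ?_⟩, hmod⟩
  · rw [hpr, hdiv]
    have hlH : HofN l := by
      rcases hl with rfl | rfl | rfl | rfl | rfl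
      · exact HofN.two
      · exact HofN.three
      · exact hof5
      · exact hof8
      · exact hof9
    have h5 := HofN.mul hlH h1
    have h6 : l * (2 * P - q) - 1 = 2 * (l * P) - (l * q + 1) := by
      rw [Nat.mul_sub]
      have : l * (2 * P) = 2 * (l * P) := by ring
      rw [this]
      omega
    rwa [h6] at h5
  · rw [hpr]
    have h7 : l * (i + 1) ≤ l * (80 * P) := Nat.mul_le_mul_left _ h2
    have h8 : l * (80 * P) = 80 * (l * P) := by ring
    rw [mul_add, mul_one] at h7
    omega
  · rw [hmod]; exact hc.1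

/-- the counting lemma -/
lemma counting (w x y z : ℕ) :
    ∀ n a b c i, Node a b c i →
      ∃ F : Finset ℕ, (∀ i' ∈ F, Node x y z i' ∧ i * pr x y z ≤ i' * pr a b c ∧
        i' * pr a b c < (i + 1) * pr x y z) ∧
        (pr x y z : ℝ) * T w (fun a b c _ => if a = x ∧ b = y ∧ c = z then 1 else 0) n a b c
          (i % 80) ≤ pr a b c * F.card := by
  have base : ∀ a b c i, Node a b c i →
      ∃ F : Finset ℕ, (∀ i' ∈ F, Node x y z i' ∧ i * pr x y z ≤ i' * pr a b c ∧
        i' * pr a b c < (i + 1) * pr x y z) ∧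
        (pr x y z : ℝ) * (if a = x ∧ b = y ∧ c = z then (1 : ℝ) else 0) ≤
          pr a b c * F.card := by
    intro a b c i h
    by_cases hv : a = x ∧ b = y ∧ c = z
    · obtain ⟨rfl, rfl, rfl⟩ := hv
      refine ⟨{i}, ?_, by simp⟩
      intro i' hi'
      rw [mem_singleton] at hi'
      subst hi'
      exact ⟨h, le_rfl, Nat.mul_lt_mul_of_pos_right (Nat.lt_succ_self _) (pr_pos _ _ _)⟩
    · exact ⟨∅, by simp, by simp [hv]⟩
  intro n
  induction n with
  | zero => intro a b c i h; exact base a b c i h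
  | succ n ih =>
    intro a b c i h
    by_cases hw : w ≤ a + b + c
    · have hb := base a b c i h
      simp only [T]
      rw [if_pos hw]
      exact hb
    · simp only [T]
      rw [if_neg hw]
      have h4 : i % 80 < 80 := Nat.mod_lt _ (by norm_num)
      obtain ⟨hl, hl1, hl2⟩ := strat_spec a b c (i % 80) h.2.2 h4
      have hpr := pr_mul hl a b c
      set l := strat a b c (i % 80) with hldef
      have hl0 : 0 < l := by omega
      have hl0' : (0 : ℝ) < l := by exact_mod_cast hl0
      have hch : ∀ r ∈ range l, Node (a + e2 l) (b + e3 l) (c + e5 l) (l * i + r) ∧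
          (l * i + r) % 80 = l * (i % 80) + r - 80 := by
        intro r hr
        exact node_child h (mem_range.mp hr)
      have hex : ∀ r ∈ range l, ∃ F : Finset ℕ, (∀ i' ∈ F, Node x y z i' ∧
          (l * i + r) * pr x y z ≤ i' * (l * pr a b c) ∧
          i' * (l * pr a b c) < (l * i + r + 1) * pr x y z) ∧
          (pr x y z : ℝ) * T w (fun a b c _ => if a = x ∧ b = y ∧ c = z then 1 else 0) n
            (a + e2 l) (b + e3 l) (c + e5 l) (l * (i % 80) + r - 80) ≤
            (l * pr a b c : ℝ) * F.card := by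
        intro r hr
        obtain ⟨F, hF1, hF2⟩ := ih _ _ _ _ (hch r hr).1
        refine ⟨F, ?_, ?_⟩
        · intro i' hi'
          have := hF1 i' hi'
          rw [hpr] at this
          exact this
        · rw [(hch r hr).2, hpr] at hF2
          push_cast at hF2
          exact hF2
      choose! F hF1 hF2 using hex
      refine ⟨(range l).biUnion F, ?_, ?_⟩
      · intro i' hi'
        obtain ⟨r, hr, hir⟩ := mem_biUnion.mp hi'
        obtain ⟨g1, g2, g3⟩ := hF1 r hr i' hir
        have hr' := mem_range.mp hr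
        refine ⟨g1, ?_, ?_⟩
        · have g4 : l * (i * pr x y z) ≤ l * (i' * pr a b c) := by
            calc l * (i * pr x y z) = (l * i) * pr x y z := by ring
              _ ≤ (l * i + r) * pr x y z := Nat.mul_le_mul_right _ (Nat.le_add_right _ _)
              _ ≤ i' * (l * pr a b c) := g2
              _ = l * (i' * pr a b c) := by ring
          exact Nat.le_of_mul_le_mul_left g4 hl0
        · have g4 : l * (i' * pr a b c) < l * ((i + 1) * pr x y z) := by
            calc l * (i' * pr a b c) = i' * (l * pr a b c) := by ring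
              _ < (l * i + r + 1) * pr x y z := g3
              _ ≤ (l * i + l) * pr x y z := Nat.mul_le_mul_right _ (by omega)
              _ = l * ((i + 1) * pr x y z) := by ring
          exact Nat.lt_of_mul_lt_mul_left g4
      · have hdisj : ∀ r ∈ range l, ∀ s ∈ range l, r ≠ s → Disjoint (F r) (F s) := by
          have key : ∀ r ∈ range l, ∀ s ∈ range l, r < s → Disjoint (F r) (F s) := by
            intro r hr s hs hrs
            rw [Finset.disjoint_left]
            intro i' h1 h2
            obtain ⟨_, _, g3⟩ := hF1 r hr i' h1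
            obtain ⟨_, g2, _⟩ := hF1 s hs i' h2
            have : (l * i + r + 1) * pr x y z ≤ (l * i + s) * pr x y z :=
              Nat.mul_le_mul_right _ (by omega)
            omega
          intro r hr s hs hrs
          rcases lt_or_gt_of_ne hrs with hlt | hgt
          · exact key r hr s hs hlt
          · exact (key s hs r hr hgt).symm
        rw [card_biUnion hdisj]
        push_cast
        rw [mul_div_assoc', div_le_iff₀ hl0', mul_sum, mul_sum, sum_mul]
        refine Finset.sum_le_sum fun r hr => ?_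
        have := hF2 r hr
        linarith

open Classical in
/-- the counting function -/
noncomputable def cnt (N : ℕ) : ℕ := ((Finset.Icc 1 N).filter HofN).card

lemma cnt_ge (w x y z : ℕ) :
    T w (fun a b c _ => if a = x ∧ b = y ∧ c = z then 1 else 0) w 0 0 0 10 / 80 *
      ((2 ^ x * 3 ^ y * 5 ^ z : ℕ) : ℝ) ≤ (cnt (2 * (2 ^ x * 3 ^ y * 5 ^ z)) : ℝ) := by
  classical
  have hn : Node 0 0 0 10 := ⟨by simpa [pr] using HofN.two, by simp [pr], by norm_num⟩
  obtain ⟨F, hF1, hF2⟩ := counting w x y z w 0 0 0 10 hn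
  have h1 : F.card ≤ 80 * (F.image (fun i => 2 * pr x y z - i / 80)).card := by
    refine Finset.card_le_mul_card_image _ _ ?_
    intro m hm
    obtain ⟨i0, hi0, hm0⟩ := mem_image.mp hm
    have hi0' := (hF1 i0 hi0).1.2.1
    have hsub : (F.filter (fun i => 2 * pr x y z - i / 80 = m)) ⊆
        Finset.Ico (80 * (i0 / 80)) (80 * (i0 / 80) + 80) := by
      intro i hi
      have hi1 := (hF1 i (mem_filter.mp hi).1).1.2.1
      have hi2 := (mem_filter.mp hi).2
      rw [mem_Ico]
      omega
    refine (card_le_card hsub).trans ?_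
    rw [Nat.card_Ico]
    omega
  have h2 : (F.image (fun i => 2 * pr x y z - i / 80)).card ≤ cnt (2 * pr x y z) := by
    unfold cnt
    refine card_le_card ?_
    intro m hm
    obtain ⟨i0, hi0, rfl⟩ := mem_image.mp hm
    obtain ⟨g1, g2, g3⟩ := (hF1 i0 hi0).1
    refine mem_filter.mpr ⟨mem_Icc.mpr ⟨?_, Nat.sub_le _ _⟩, g1⟩
    omega
  have h3 : F.card ≤ 80 * cnt (2 * pr x y z) := h1.trans (Nat.mul_le_mul_left _ h2)
  have h4 : (F.card : ℝ) ≤ 80 * (cnt (2 * pr x y z) : ℝ) := by exact_mod_cast h3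
  have h5 : pr 0 0 0 = 1 := by simp [pr]
  rw [h5] at hF2
  have h6 : (10 : ℕ) % 80 = 10 := by norm_num
  rw [h6] at hF2
  have h7 : (2 ^ x * 3 ^ y * 5 ^ z : ℕ) = pr x y z := rfl
  rw [h7]
  push_cast at hF2
  linarith

end Hof211
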