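import Pool.Agent.Helper211.Hof.Oper

set_option autoImplicit false

namespace Hof211

open Finset

theorem qq_pos : (0:ℝ) < qq := by unfold qq; norm_num
theorem ss_pos : (0:ℝ) < ss := by unfold ss; norm_num

theorem letters (l : ℕ) (hl : l = 2 ∨ l = 3 ∨ l = 5 ∨ l = 8 ∨ l = 9) :
    ss ^ (e2 l + e3 l + e5 l) * qq ^ (2 * (e3 l : ℤ) - e2 l - e5 l) ≤ (U 0 l : ℝ) / 100000 ∧
    ss ^ (e2 l + e3 l + e5 l) * qq ^ (-(2 * (e3 l : ℤ) - e2 l - e5 l)) ≤ (U 1 l : ℝ) / 100000 ∧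
    ss ^ (e2 l + e3 l + e5 l) * qq ^ (5 * (e5 l : ℤ) - e2 l - e3 l) ≤ (U 2 l : ℝ) / 100000 ∧
    ss ^ (e2 l + e3 l + e5 l) * qq ^ (-(5 * (e5 l : ℤ) - e2 l - e3 l)) ≤ (U 3 l : ℝ) / 100000 ∧
    ss ^ (e2 l + e3 l + e5 l) ≤ ss ^ 3 ∧ 1001 / 1000 ≤ ss ^ (e2 l + e3 l + e5 l) ∧
    qq ^ (2 * (e3 l : ℤ) - e2 l - e5 l) ≤ qq ^ 5 ∧
    qq ^ (-(2 * (e3 l : ℤ) - e2 l - e5 l)) ≤ qq ^ 5 ∧
    qq ^ (5 * (e5 l : ℤ) - e2 l - e3 l) ≤ qq ^ 5 ∧
    qq ^ (-(5 * (e5 l : ℤ) - e2 l - e3 l)) ≤ qq ^ 5 := by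
  rcases hl with rfl | rfl | rfl | rfl | rfl <;>
    simp only [e2, e3, e5, U, uTab, ss, qq] <;> norm_num [zpow_neg] <;>
    norm_num [zpow_ofNat]

theorem termA (Om : ℕ) (e l : ℕ) (S Gj : ℕ) (X D : ℤ) (hl : 0 < l)
    (hU : ss ^ Om * qq ^ D ≤ (U e l : ℝ) / 100000)
    (hc : U e l * S ≤ 100000 * (l * Gj)) :
    ss ^ Om * (qq ^ (X + D) * (S : ℝ) / l) ≤ qq ^ X * (Gj : ℝ) := by
  have hl' : (0:ℝ) < l := by exact_mod_cast hl
  have hq : (0:ℝ) < qq ^ X := zpow_pos qq_pos _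
  rw [zpow_add₀ qq_pos.ne']
  have hc' : (U e l : ℝ) * S ≤ 100000 * (l * Gj) := by exact_mod_cast hc
  have h1 : ss ^ Om * qq ^ D * (S : ℝ) / l ≤ Gj := by
    rw [div_le_iff₀ hl']
    have hS : (0:ℝ) ≤ S := Nat.cast_nonneg _
    have := mul_le_mul_of_nonneg_right hU hS
    nlinarith
  calc ss ^ Om * (qq ^ X * qq ^ D * (S : ℝ) / l) = qq ^ X * (ss ^ Om * qq ^ D * (S : ℝ) / l) := by
        ring
    _ ≤ _ := mul_le_mul_of_nonneg_left h1 hq.le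

theorem termB (Om : ℕ) (l : ℕ) (S : ℕ) (X D : ℤ) (hl : 0 < l) (hX : X ≤ 0)
    (hO : ss ^ Om ≤ ss ^ 3) (hD : qq ^ D ≤ qq ^ 5) (hS : S ≤ l * 42732) :
    ss ^ Om * (qq ^ (X + D) * (S : ℝ) / l) ≤ 100000 := by
  have hl' : (0:ℝ) < l := by exact_mod_cast hl
  have hq : (0:ℝ) < qq ^ X := zpow_pos qq_pos _
  have hqD : (0:ℝ) < qq ^ D := zpow_pos qq_pos _
  have hq1 : qq ^ X ≤ 1 := zpow_le_one_of_nonpos₀ (by unfold qq; norm_num) hX
  rw [zpow_add₀ qq_pos.ne']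
  have hS' : (S : ℝ) / l ≤ 42732 := by
    rw [div_le_iff₀ hl']
    have : (S : ℝ) ≤ l * 42732 := by exact_mod_cast hS
    linarith
  have hS0 : (0:ℝ) ≤ (S : ℝ) / l := by positivity
  have h1 : qq ^ X * qq ^ D * (S : ℝ) / l ≤ 1 * qq ^ 5 * 42732 := by
    rw [mul_div_assoc]
    have h2 : qq ^ X * qq ^ D ≤ 1 * qq ^ 5 := mul_le_mul hq1 hD hqD.le (by norm_num)
    exact mul_le_mul h2 hS' hS0 (by have := qq_pos; positivity)
  have h0 : (0:ℝ) ≤ qq ^ X * qq ^ D * (S : ℝ) / l := by positivity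
  calc ss ^ Om * (qq ^ X * qq ^ D * (S : ℝ) / l) ≤ ss ^ 3 * (1 * qq ^ 5 * 42732) :=
        mul_le_mul hO h1 h0 (by have := ss_pos; positivity)
    _ ≤ 100000 := by unfold ss qq; norm_num

/-- JOB A: one step of the supermartingale. -/
theorem onestep (a b c j : ℕ) (h1 : 10 ≤ j) (h2 : j < 80) :
    (∑ r ∈ range (strat a b c j), Psi (a + e2 (strat a b c j)) (b + e3 (strat a b c j))
        (c + e5 (strat a b c j)) (strat a b c j * j + r - 80)) / (strat a b c j : ℝ) ≤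
      Psi a b c j := by
  obtain ⟨k, rfl⟩ : ∃ k, j = k + 10 := ⟨j - 10, by omega⟩
  have hk : k < 70 := by omega
  have hs : sgn a b c < 4 := by unfold sgn; split_ifs <;> norm_num
  obtain ⟨hlet, hlo, hhi, hc1, hc2⟩ := cert (sgn a b c) hs k hk
  have hX1 : sgn a b c / 2 = 0 ∧ 0 ≤ X1 a b c ∨ sgn a b c / 2 = 1 ∧ X1 a b c ≤ 0 := by
    unfold sgn; split_ifs with h1 h2 h2 <;> first | (left; exact ⟨by norm_num, h1⟩) | (right; exact ⟨by norm_num, by omega⟩)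
  have hX2 : 2 + sgn a b c % 2 = 2 ∧ 0 ≤ X2 a b c ∨ 2 + sgn a b c % 2 = 3 ∧ X2 a b c ≤ 0 := by
    unfold sgn; split_ifs with h1 h2 h2 <;> first | (left; exact ⟨by norm_num, h2⟩) | (right; exact ⟨by norm_num, by omega⟩)
  have hstrat : strat a b c (k + 10) = pol (sgn a b c) (k + 10) := rfl
  rw [hstrat]
  generalize pol (sgn a b c) (k + 10) = l at hlet hlo hhi hc1 hc2 ⊢
  have hl : 0 < l := by omega
  have hl' : (0:ℝ) < l := by exact_mod_cast hl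
  obtain ⟨u0, u1, u2, u3, hO, hO1, d1, d1', d2, d2'⟩ := letters l hlet
  set Om := e2 l + e3 l + e5 l with hOm
  set D1 : ℤ := 2 * (e3 l : ℤ) - e2 l - e5 l with hD1
  set D2 : ℤ := 5 * (e5 l : ℤ) - e2 l - e3 l with hD2
  have hx1 : X1 (a + e2 l) (b + e3 l) (c + e5 l) = X1 a b c + D1 := by
    unfold X1; push_cast; ring
  have hx2 : X2 (a + e2 l) (b + e3 l) (c + e5 l) = X2 a b c + D2 := by
    unfold X2; push_cast; ring
  have hSb : ∀ e < 4, (∑ r ∈ range l, G e (l * (k + 10) + r - 80)) ≤ l * 42732 := by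
    intro e he
    have := Finset.sum_le_card_nsmul (range l) (fun r => G e (l * (k + 10) + r - 80)) 42732 (by
      intro r hr
      have hr' := Finset.mem_range.1 hr
      have hle : l * (k + 10) + r - 80 = (l * (k + 10) + r - 90) + 10 := by omega
      have hlt : l * (k + 10) + r - 90 < 70 := by
        have : l * (k + 11) = l * (k + 10) + l := by ring
        omega
      show G e (l * (k + 10) + r - 80) ≤ 42732
      rw [hle]
      exact (G_bound e he _ hlt).2)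
    simpa using this
  have hsum : (∑ r ∈ range l, Psi (a + e2 l) (b + e3 l) (c + e5 l) (l * (k + 10) + r - 80)) / (l : ℝ)
      = ss ^ (a + b + c) * (ss ^ Om * (qq ^ (X1 a b c + D1) * ((∑ r ∈ range l, G 0 (l * (k + 10) + r - 80) : ℕ) : ℝ) / l)
        + ss ^ Om * (qq ^ (-X1 a b c + -D1) * ((∑ r ∈ range l, G 1 (l * (k + 10) + r - 80) : ℕ) : ℝ) / l)
        + ss ^ Om * (qq ^ (X2 a b c + D2) * ((∑ r ∈ range l, G 2 (l * (k + 10) + r - 80) : ℕ) : ℝ) / l)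
        + ss ^ Om * (qq ^ (-X2 a b c + -D2) * ((∑ r ∈ range l, G 3 (l * (k + 10) + r - 80) : ℕ) : ℝ) / l)
        - ss ^ Om * 10 ^ 9) := by
    have e1 : -(X1 a b c + D1) = -X1 a b c + -D1 := by ring
    have e2' : -(X2 a b c + D2) = -X2 a b c + -D2 := by ring
    have e3' : a + e2 l + (b + e3 l) + (c + e5 l) = (a + b + c) + Om := by rw [hOm]; ring
    unfold Psi Phi
    rw [hx1, hx2, e1, e2', e3', pow_add]
    rw [← Finset.mul_sum, Finset.sum_sub_distrib, Finset.sum_add_distrib, Finset.sum_add_distrib,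
      Finset.sum_add_distrib, ← Finset.mul_sum, ← Finset.mul_sum, ← Finset.mul_sum,
      ← Finset.mul_sum, Finset.sum_const, Finset.card_range, nsmul_eq_mul]
    push_cast
    field_simp
    try ring
  rw [hsum]
  unfold Psi
  refine mul_le_mul_of_nonneg_left ?_ (pow_nonneg ss_pos.le _)
  have g1 : ss ^ Om * (qq ^ (X1 a b c + D1) * ((∑ r ∈ range l, G 0 (l * (k + 10) + r - 80) : ℕ) : ℝ) / l)
        + ss ^ Om * (qq ^ (-X1 a b c + -D1) * ((∑ r ∈ range l, G 1 (l * (k + 10) + r - 80) : ℕ) : ℝ) / l)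
        ≤ qq ^ (X1 a b c) * G 0 (k + 10) + qq ^ (-X1 a b c) * G 1 (k + 10) + 100000 := by
    have p0 : 0 ≤ qq ^ (X1 a b c) * (G 0 (k + 10) : ℝ) :=
      mul_nonneg (zpow_pos qq_pos _).le (Nat.cast_nonneg _)
    have p1 : 0 ≤ qq ^ (-X1 a b c) * (G 1 (k + 10) : ℝ) :=
      mul_nonneg (zpow_pos qq_pos _).le (Nat.cast_nonneg _)
    rcases hX1 with ⟨he, hX⟩ | ⟨he, hX⟩
    · rw [he] at hc1
      have t1 := termA Om 0 l _ (G 0 (k + 10)) (X1 a b c) D1 hl u0 hc1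
      have t2 := termB Om l _ (-X1 a b c) (-D1) hl (by omega) hO d1' (hSb 1 (by norm_num))
      linarith
    · rw [he] at hc1
      have t1 := termA Om 1 l _ (G 1 (k + 10)) (-X1 a b c) (-D1) hl u1 hc1
      have t2 := termB Om l _ (X1 a b c) (D1) hl (by omega) hO d1 (hSb 0 (by norm_num))
      linarith
  have g2 : ss ^ Om * (qq ^ (X2 a b c + D2) * ((∑ r ∈ range l, G 2 (l * (k + 10) + r - 80) : ℕ) : ℝ) / l)
        + ss ^ Om * (qq ^ (-X2 a b c + -D2) * ((∑ r ∈ range l, G 3 (l * (k + 10) + r - 80) : ℕ) : ℝ) / l)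
        ≤ qq ^ (X2 a b c) * G 2 (k + 10) + qq ^ (-X2 a b c) * G 3 (k + 10) + 100000 := by
    have p0 : 0 ≤ qq ^ (X2 a b c) * (G 2 (k + 10) : ℝ) :=
      mul_nonneg (zpow_pos qq_pos _).le (Nat.cast_nonneg _)
    have p1 : 0 ≤ qq ^ (-X2 a b c) * (G 3 (k + 10) : ℝ) :=
      mul_nonneg (zpow_pos qq_pos _).le (Nat.cast_nonneg _)
    rcases hX2 with ⟨he, hX⟩ | ⟨he, hX⟩
    · rw [he] at hc2
      have t1 := termA Om 2 l _ (G 2 (k + 10)) (X2 a b c) D2 hl u2 hc2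
      have t2 := termB Om l _ (-X2 a b c) (-D2) hl (by omega) hO d2' (hSb 3 (by norm_num))
      linarith
    · rw [he] at hc2
      have t1 := termA Om 3 l _ (G 3 (k + 10)) (-X2 a b c) (-D2) hl u3 hc2
      have t2 := termB Om l _ (X2 a b c) (D2) hl (by omega) hO d2 (hSb 2 (by norm_num))
      linarith
  unfold Phi
  nlinarith [hO1]

end Hof211
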